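import Pool.Agent.P8H10.TW.Gen

/-!
# Project TX: conjugate roots over a discretely valued field
-/

set_option autoImplicit false

open Module Polynomial

namespace Pool.Agent.P8H10.TX

variable {p : ℕ} [hp : Fact p.Prime]

/-- the value group of `F` is generated by `‖ϖ‖` -/
structure Unif (F : IntermediateField ℚ_[p] (PadicAlgCl p)) (ϖ : PadicAlgCl p) : Prop where
  mem : ϖ ∈ F
  alg : IsAlgebraic ℚ ϖ
  ne : ϖ ≠ 0
  lt : ‖ϖ‖ < 1
  gen : ∀ c ∈ F, c ≠ 0 → ∃ m : ℤ, ‖c‖ = ‖ϖ‖ ^ m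

theorem indep_pow {F : IntermediateField ℚ_[p] (PadicAlgCl p)} {ϖ : PadicAlgCl p} (h : Unif F ϖ)
    {N : ℕ} (hN : N ≠ 0) {θ : PadicAlgCl p} (hθ : θ ^ N = ϖ) (c : ℕ → F)
    (hc : ∑ i ∈ Finset.range N, (c i : PadicAlgCl p) * θ ^ i = 0) : ∀ i < N, c i = 0 := by
  classical
  by_contra hcon
  push Not at hcon
  obtain ⟨i₀, hi₀, hne⟩ := hcon
  have hϖ : 0 < ‖ϖ‖ := norm_pos_iff.2 h.ne
  have hθN : ‖θ‖ ^ N = ‖ϖ‖ := by rw [← norm_pow, hθ]
  have hθ0 : 0 < ‖θ‖ := by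
    refine norm_pos_iff.2 fun h0 => h.ne ?_
    rw [← hθ, h0, zero_pow hN]
  have hθ1 : ‖θ‖ < 1 := by
    by_contra h1
    push Not at h1
    have := one_le_pow₀ (n := N) h1
    rw [hθN] at this
    exact absurd h.lt (not_lt.2 this)
  -- norms are distinct
  have hnorm : ∀ i, c i ≠ 0 → ∃ m : ℤ, ‖(c i : PadicAlgCl p) * θ ^ i‖ = ‖θ‖ ^ (N * m + i : ℤ) := by
    intro i hi
    obtain ⟨m, hm⟩ := h.gen _ (c i).2 (fun h0 => hi (Subtype.ext h0))
    refine ⟨m, ?_⟩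
    rw [norm_mul, norm_pow, hm, ← hθN, zpow_add₀ hθ0.ne', zpow_mul, zpow_natCast, zpow_natCast]
  obtain ⟨S, hS⟩ : ∃ S, S = (Finset.range N).filter fun i => c i ≠ 0 := ⟨_, rfl⟩
  have hSne : S.Nonempty := ⟨i₀, by rw [hS]; simp [hi₀, hne]⟩
  have hsum : ∑ i ∈ S, (c i : PadicAlgCl p) * θ ^ i = 0 := by
    rw [hS, ← hc]
    refine Finset.sum_subset (Finset.filter_subset _ _) fun i hi hni => ?_
    have h0' : c i = 0 := by
      by_contra h0
      exact hni (Finset.mem_filter.2 ⟨hi, h0⟩)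
    rw [h0', ZeroMemClass.coe_zero, zero_mul]
  obtain ⟨i, hi, hmax⟩ := S.exists_max_image (fun i => ‖(c i : PadicAlgCl p) * θ ^ i‖) hSne
  have hlt : ∀ j ∈ S.erase i, ‖(c j : PadicAlgCl p) * θ ^ j‖ < ‖(c i : PadicAlgCl p) * θ ^ i‖ := by
    intro j hj
    obtain ⟨hji, hjS⟩ := Finset.mem_erase.1 hj
    refine lt_of_le_of_ne (hmax j hjS) fun he => hji ?_
    rw [hS, Finset.mem_filter, Finset.mem_range] at hi hjS
    obtain ⟨a, ha⟩ := hnorm i hi.2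
    obtain ⟨b, hb⟩ := hnorm j hjS.2
    rw [ha, hb] at he
    have h1 := zpow_right_injective₀ hθ0 hθ1.ne he
    have h2 : (j : ℤ) % N = (i : ℤ) % N := by
      have h3 : (j : ℤ) = i + N * (a - b) := by
        linarith
      rw [h3, Int.add_mul_emod_self_left]
    rw [Int.emod_eq_of_lt (by positivity) (by exact_mod_cast hjS.1),
      Int.emod_eq_of_lt (by positivity) (by exact_mod_cast hi.1)] at h2
    exact_mod_cast h2
  have hi0 : 0 < ‖(c i : PadicAlgCl p) * θ ^ i‖ := by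
    rw [hS, Finset.mem_filter] at hi
    refine norm_pos_iff.2 (mul_ne_zero (fun h0 => hi.2 (Subtype.ext h0)) (pow_ne_zero _ ?_))
    exact norm_pos_iff.1 hθ0
  rw [← Finset.add_sum_erase _ _ hi] at hsum
  have h4 : (c i : PadicAlgCl p) * θ ^ i = -∑ j ∈ S.erase i, (c j : PadicAlgCl p) * θ ^ j := by
    linear_combination hsum
  have h5 := congrArg norm h4
  rw [norm_neg] at h5
  rcases (S.erase i).eq_empty_or_nonempty with he | he
  · rw [he, Finset.sum_empty, norm_zero] at h5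
    exact hi0.ne' h5
  · obtain ⟨j, hj, hle⟩ := IsUltrametricDist.exists_norm_finsetSum_le_of_nonempty he
      (fun j => (c j : PadicAlgCl p) * θ ^ j)
    rw [← h5] at hle
    exact absurd (hlt j hj) (not_lt.2 hle)

theorem minpoly_eq {F : IntermediateField ℚ_[p] (PadicAlgCl p)} {ϖ : PadicAlgCl p} (h : Unif F ϖ)
    {N : ℕ} (hN : N ≠ 0) {θ : PadicAlgCl p} (hθ : θ ^ N = ϖ) :
    minpoly F θ = X ^ N - C (⟨ϖ, h.mem⟩ : F) := by
  have hm : (X ^ N - C (⟨ϖ, h.mem⟩ : F)).Monic := monic_X_pow_sub_C _ hN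
  have h0 : aeval θ (X ^ N - C (⟨ϖ, h.mem⟩ : F)) = 0 := by
    rw [map_sub, map_pow, aeval_X, aeval_C, hθ]
    exact sub_self _
  have hint : IsIntegral F θ := ⟨_, hm, h0⟩
  symm
  refine eq_of_monic_of_dvd_of_natDegree_le (minpoly.monic hint) hm (minpoly.dvd F θ h0) ?_
  rw [natDegree_X_pow_sub_C]
  by_contra hlt
  push Not at hlt
  have h1 := minpoly.aeval F θ
  rw [aeval_eq_sum_range' hlt] at h1
  have h2 := indep_pow h hN hθ (fun i => (minpoly F θ).coeff i) (by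
    rw [← h1]
    exact Finset.sum_congr rfl fun i _ => rfl)
  have h3 := h2 _ hlt
  have h4 := (minpoly.monic hint)
  rw [Monic, leadingCoeff] at h4
  rw [h3] at h4
  exact zero_ne_one h4

theorem conj {F : IntermediateField ℚ_[p] (PadicAlgCl p)} {ϖ : PadicAlgCl p} (h : Unif F ϖ)
    {N : ℕ} (hN : N ≠ 0) {θ θ' : PadicAlgCl p} (hθ : θ ^ N = ϖ) (hθ' : θ' ^ N = ϖ) :
    ∃ τ : PadicAlgCl p ≃ₐ[ℚ_[p]] PadicAlgCl p, τ θ = θ' ∧ ∀ c ∈ F, τ c = c := by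
  have hcl : Normal F (PadicAlgCl p) := by
    have : Algebra.IsAlgebraic F (PadicAlgCl p) := Algebra.IsAlgebraic.tower_top (K := ℚ_[p]) F
    exact ⟨fun x => IsAlgClosed.splits _⟩
  have h1 : IsConjRoot F θ θ' := by
    rw [IsConjRoot, minpoly_eq h hN hθ, minpoly_eq h hN hθ']
  obtain ⟨σ, hσ⟩ := isConjRoot_iff_exists_algEquiv.1 h1.symm
  exact ⟨σ.restrictScalars ℚ_[p], hσ, fun c hc => σ.commutes ⟨c, hc⟩⟩

end Pool.Agent.P8H10.TX
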