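import Pool.Agent.P8H10.TX.Eis

/-!
# Project TX: the tower over a discretely valued field
-/

set_option autoImplicit false

open Matrix Module

namespace Pool.Agent.P8H10.TX

open Pool.Agent.P8H10.SF (HasZero Bad)
open Pool.Agent.W245.PB (IsIwasawaLog)
open Pool.Agent.P8H10 (log_gal)

variable {p : ℕ} [hp : Fact p.Prime] {F : IntermediateField ℚ_[p] (PadicAlgCl p)}
  {ϖ : PadicAlgCl p}

/-- the algebraic numbers in `F` -/
noncomputable def KF (F : IntermediateField ℚ_[p] (PadicAlgCl p)) : Subfield (PadicAlgCl p) :=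
  (algebraicClosure ℚ (PadicAlgCl p)).toSubfield ⊓ F.toSubfield

theorem mem_KF {c : PadicAlgCl p} : c ∈ KF F ↔ IsAlgebraic ℚ c ∧ c ∈ F := by
  unfold KF
  rw [Subfield.mem_inf]
  exact Iff.rfl.trans (and_congr mem_algebraicClosure_iff Iff.rfl)

theorem lift {M : Matrix (Fin 2) (Fin 2) (PadicAlgCl p)} (h : HasZero (KF F) M) :
    HasZero (algebraicClosure ℚ (PadicAlgCl p)) M := by
  obtain ⟨w, v, hw, hv, h⟩ := h
  refine ⟨fun i => ⟨w i, mem_algebraicClosure_iff.2 (mem_KF.1 (w i).2).1⟩,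
    fun i => ⟨v i, mem_algebraicClosure_iff.2 (mem_KF.1 (v i).2).1⟩, ?_, ?_, ?_⟩
  · intro h0
    apply hw
    funext i
    apply Subtype.ext
    have h5 := congrArg Subtype.val (congrFun h0 i)
    exact h5
  · intro h0
    apply hv
    funext i
    apply Subtype.ext
    have h5 := congrArg Subtype.val (congrFun h0 i)
    exact h5
  · exact h

theorem not_bad_of_zero {M : Matrix (Fin 2) (Fin 2) (PadicAlgCl p)}
    (h : HasZero (KF F) M) : ¬ Bad M := by
  rintro ⟨h1, h2, h3⟩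
  rcases Pool.Agent.P8H46.SF.zer _ _ M (lift h) h3 with h4 | h4
  · exact h4 h1
  · exact h4 h2

theorem not_bad_two (y₁ y₂ : PadicAlgCl p) {M : Matrix (Fin 2) (Fin 2) (PadicAlgCl p)}
    (hM : ∀ i j, M i j ∈ Submodule.span (KF F) {y₁, y₂}) : ¬ Bad M := by
  rintro ⟨h1, h2, h3⟩
  have hM' : ∀ i j, M i j ∈ Submodule.span (algebraicClosure ℚ (PadicAlgCl p)) {y₁, y₂} := by
    intro i j
    obtain ⟨a, b, hab⟩ := Submodule.mem_span_pair.1 (hM i j)
    refine Submodule.mem_span_pair.2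
      ⟨⟨a, mem_algebraicClosure_iff.2 (mem_KF.1 a.2).1⟩,
        ⟨b, mem_algebraicClosure_iff.2 (mem_KF.1 b.2).1⟩, ?_⟩
    rw [← hab]
    rfl
  rcases Pool.Agent.P8H26.SF.two _ _ y₁ y₂ M hM' h3 with h4 | h4
  · exact h4 h1
  · exact h4 h2

/-- **One eigenvector.** -/
theorem step (τ : PadicAlgCl p ≃ₐ[ℚ_[p]] PadicAlgCl p) (hτF : ∀ c ∈ F, τ c = c) (x : PadicAlgCl p)
    (c : KF F) (hx : τ x = c * x) (hc2 : c ^ 2 ≠ 1) (U : Submodule (KF F) (PadicAlgCl p))
    (hU : ∀ w ∈ U, τ w = w) (M : Matrix (Fin 2) (Fin 2) (PadicAlgCl p))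
    (hM : ∀ i j, M i j ∈ U ⊔ Submodule.span (KF F) {x}) (hbad : Bad M) : ∀ i j, M i j ∈ U := by
  rcases Pool.Agent.P8H10.TW.core (Pool.Agent.P8H33.QC.rh τ) (fun c => hτF _ (mem_KF.1 c.2).2) x c hx
    hc2 U (fun w hw => hU w hw) M hM hbad.2.2 with h | h
  · exact h
  · exact absurd hbad (not_bad_of_zero h)

/-- **Chains of eigenvectors.** -/
theorem chain_main (x : ℕ → PadicAlgCl p) (τ : ℕ → PadicAlgCl p ≃ₐ[ℚ_[p]] PadicAlgCl p)
    (c : ℕ → KF F) (hτF : ∀ k, ∀ c ∈ F, τ k c = c) (hx : ∀ k, τ k (x k) = (c k : PadicAlgCl p) * x k) (hc : ∀ k, c k ^ 2 ≠ 1)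
    (hfix : ∀ k i, i < k → τ k (x i) = x i)
    (U : Submodule (KF F) (PadicAlgCl p)) (hU : ∀ k, ∀ w ∈ U, τ k w = w)
    (M : Matrix (Fin 2) (Fin 2) (PadicAlgCl p))
    (hM : ∀ i j, M i j ∈ U ⊔ Submodule.span (KF F) (Set.range x))
    (hbad : Bad M) : ∀ i j, M i j ∈ U := by
  classical
  obtain ⟨V, hV⟩ : ∃ V : ℕ → Submodule (KF F) (PadicAlgCl p), V = fun k =>
    U ⊔ Submodule.span (KF F) (x '' Set.Iio k) := ⟨_, rfl⟩
  have hmono : Monotone V := by
    intro a b hab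
    rw [hV]
    exact sup_le_sup_left (Submodule.span_mono (Set.image_mono (Set.Iio_subset_Iio hab))) _
  have hsup : U ⊔ Submodule.span (KF F) (Set.range x) ≤ ⨆ k, V k := by
    refine sup_le ?_ (Submodule.span_le.2 ?_)
    · refine le_trans ?_ (le_iSup V 0)
      rw [hV]
      exact le_sup_left
    · rintro _ ⟨k, rfl⟩
      have h1 : x k ∈ V (k + 1) := by
        rw [hV]
        exact Submodule.mem_sup_right (Submodule.subset_span ⟨k, Set.mem_Iio.2 (Nat.lt_succ_self k), rfl⟩)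
      exact (le_iSup V (k + 1)) h1
  have hex : ∀ i j, ∃ k, M i j ∈ V k := fun i j =>
    (Submodule.mem_iSup_of_directed V hmono.directed_le).1 (hsup (hM i j))
  choose f hf using hex
  have hstep : ∀ k, (∀ i j, M i j ∈ V k) → ∀ i j, M i j ∈ U := by
    intro k
    induction k with
    | zero =>
      intro h1 i j
      have h2 := h1 i j
      rw [hV] at h2
      simp only [Set.Iio_zero_eq_empty, Set.image_empty, Submodule.span_empty, sup_bot_eq] at h2
      exact h2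
    | succ k ih =>
      intro h1
      apply ih
      have hVs : V (k + 1) ≤ V k ⊔ Submodule.span (KF F) {x k} := by
        rw [hV]
        refine sup_le (le_sup_of_le_left le_sup_left) (Submodule.span_le.2 ?_)
        rintro _ ⟨i, hi, rfl⟩
        rcases Nat.lt_succ_iff_lt_or_eq.1 (Set.mem_Iio.1 hi) with hi | rfl
        · exact Submodule.mem_sup_left (Submodule.mem_sup_right (Submodule.subset_span ⟨i, hi, rfl⟩))
        · exact Submodule.mem_sup_right (Submodule.subset_span rfl)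
      have hfV : ∀ w ∈ V k, τ k w = w := by
        intro w hw
        rw [hV] at hw
        obtain ⟨u, hu, s, hs, rfl⟩ := Submodule.mem_sup.1 hw
        have h4 : τ k s = s := by
          refine Submodule.span_induction (p := fun y _ => τ k y = y) ?_ (map_zero _) ?_ ?_ hs
          · rintro _ ⟨i, hi, rfl⟩
            exact hfix k i (Set.mem_Iio.1 hi)
          · intro a b _ _ ha hb
            rw [map_add, ha, hb]
          · intro a y _ hy
            have hc : τ k (a : PadicAlgCl p) = a := hτF k _ (mem_KF.1 a.2).2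
            change τ k ((a : PadicAlgCl p) * y) = (a : PadicAlgCl p) * y
            rw [map_mul, hc, hy]
        rw [map_add, hU k u hu, h4]
      exact step (τ k) (hτF k) (x k) (c k) (hx k) (hc k) (V k) hfV M (fun i j => hVs (h1 i j)) hbad
  refine hstep (f 0 0 ⊔ f 0 1 ⊔ f 1 0 ⊔ f 1 1) fun i j => ?_
  refine hmono ?_ (hf i j)
  fin_cases i <;> fin_cases j <;> simp

/-- a tower of roots of `p` -/
structure Tower (n : ℕ) (ϖ : PadicAlgCl p) (θ : ℕ → PadicAlgCl p) : Prop where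
  zero : θ 0 = ϖ
  succ : ∀ k, θ (k + 1) ^ n = θ k

/-- the element of the tower -/
noncomputable def xx (L : PadicAlgCl p → PadicAlgCl p) (n : ℕ) (z : PadicAlgCl p) (t : PadicAlgCl p) :
    PadicAlgCl p :=
  ∑ j ∈ Finset.range n, z⁻¹ ^ j *
    L (1 + (p : PadicAlgCl p) * (z ^ j * t))

theorem exists_tower (ϖ : PadicAlgCl p) (n : ℕ) (hn : 0 < n) : ∃ θ : ℕ → PadicAlgCl p, Tower n ϖ θ := by
  have h : ∀ a : PadicAlgCl p, ∃ b : PadicAlgCl p, b ^ n = a := fun a =>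
    IsAlgClosed.exists_pow_nat_eq a hn
  choose f hf using h
  exact ⟨fun k => Nat.rec ϖ (fun _ a => f a) k, rfl, fun k => hf _⟩

variable {n : ℕ} {θ : ℕ → PadicAlgCl p}

theorem Tower.pow (h : Tower n ϖ θ) (i d : ℕ) : θ (i + d) ^ (n ^ d) = θ i := by
  induction d with
  | zero => simp
  | succ d ih => rw [← add_assoc, pow_succ', pow_mul, h.succ, ih]

theorem Tower.pow_p (h : Tower n ϖ θ) (k : ℕ) : θ k ^ (n ^ k) = ϖ := by
  have := h.pow 0 k
  rwa [zero_add, h.zero] at this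

theorem Tower.ne_zero (hϖ : Unif F ϖ) (h : Tower n ϖ θ) (hn : 0 < n) (k : ℕ) : θ k ≠ 0 := by
  intro h0
  have h1 := h.pow_p k
  rw [h0, zero_pow (pow_pos hn k).ne'] at h1
  exact hϖ.ne h1.symm

theorem norm_p : ‖(p : PadicAlgCl p)‖ = (p : ℝ)⁻¹ := by
  have h := PadicAlgCl.norm_extends p (p : ℚ_[p])
  rw [map_natCast] at h
  rw [h, Padic.norm_p]

theorem Tower.norm_lt (hϖ : Unif F ϖ) (h : Tower n ϖ θ) (k : ℕ) : ‖θ k‖ < 1 := by
  by_contra hcon
  push Not at hcon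
  have h1 := congrArg norm (h.pow_p k)
  rw [norm_pow] at h1
  have h2 : 1 ≤ ‖θ k‖ ^ n ^ k := one_le_pow₀ hcon
  rw [h1] at h2
  exact absurd hϖ.lt (not_lt.2 h2)

section

variable {z : PadicAlgCl p} (hz : z ^ n = 1)
include hz

theorem z_pow : z ^ n = 1 := hz

/-- the automorphisms of the tower -/
theorem Tower.auto (hϖ : Unif F ϖ) (h : Tower n ϖ θ) (hn : 0 < n) (k : ℕ) :
    ∃ τ : PadicAlgCl p ≃ₐ[ℚ_[p]] PadicAlgCl p, τ (θ (k + 1)) = z * θ (k + 1) ∧
      (∀ i, i ≤ k → τ (θ i) = θ i) ∧ ∀ c ∈ F, τ c = c := by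
  have hzn : ∀ d, z ^ (n ^ (d + 1)) = 1 := by
    intro d
    rw [pow_succ', pow_mul, z_pow hz, one_pow]
  obtain ⟨τ, hτ, hτF⟩ := conj hϖ (N := n ^ (k + 1)) (pow_pos hn _).ne' (θ := θ (k + 1))
    (θ' := z * θ (k + 1)) (h.pow_p _) (by rw [mul_pow, hzn, one_mul, h.pow_p])
  refine ⟨τ, hτ, fun i hi => ?_, hτF⟩
  obtain ⟨d, rfl⟩ := Nat.exists_eq_add_of_le hi
  have h1 := h.pow i (d + 1)
  rw [← add_assoc] at h1
  rw [← h1, map_pow, hτ, mul_pow, hzn, one_mul]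

theorem norm_z (hn : 0 < n) : ‖z‖ = 1 := by
  have h1 := congrArg norm (z_pow hz)
  rw [norm_pow, norm_one] at h1
  exact (pow_eq_one_iff_of_nonneg (norm_nonneg _) hn.ne').1 h1

end

theorem small (L : PadicAlgCl p → PadicAlgCl p) {z : PadicAlgCl p} (hz : z ^ n = 1) (hn : 0 < n)
    {t : PadicAlgCl p} (ht : ‖t‖ < 1) (j : ℕ) :
    ‖(p : PadicAlgCl p) * (z ^ j * t)‖ < 1 / p := by
  have hp0 : (0 : ℝ) < p := by exact_mod_cast hp.out.pos
  rw [norm_mul, norm_mul, norm_pow, norm_z hz hn, one_pow, one_mul, norm_p, one_div]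
  have := inv_pos.2 hp0
  nlinarith

theorem arg_ne {z : PadicAlgCl p} (hz : z ^ n = 1) (hn : 0 < n)
    {t : PadicAlgCl p} (ht : ‖t‖ < 1) (j : ℕ) :
    1 + (p : PadicAlgCl p) * (z ^ j * t) ≠ 0 := by
  intro h
  have h1 := small (fun x => x) hz hn ht j
  have h2 : (p : PadicAlgCl p) * (z ^ j * t) = -1 := by linear_combination h
  rw [h2, norm_neg, norm_one] at h1
  have h3 : (1 : ℝ) < p := by exact_mod_cast hp.out.one_lt
  have h4 := inv_lt_one_of_one_lt₀ h3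
  rw [one_div] at h1
  linarith

variable {L : PadicAlgCl p → PadicAlgCl p}

/-- automorphisms fixing `t` fix the element -/
theorem xx_fix (hL : IsIwasawaLog p L) {z : PadicAlgCl p} (hz : z ^ n = 1) (hn : 0 < n)
    {t : PadicAlgCl p} (ht : ‖t‖ < 1) (τ : PadicAlgCl p ≃ₐ[ℚ_[p]] PadicAlgCl p) (hτz : τ z = z) (h : τ t = t) :
    τ (xx L n z t) = xx L n z t := by
  unfold xx
  rw [map_sum]
  refine Finset.sum_congr rfl fun j _ => ?_
  rw [map_mul, map_pow, map_inv₀, hτz, ← log_gal hL τ (arg_ne hz hn ht j), map_add, map_one,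
    map_mul, map_mul, map_pow, hτz, map_natCast, h]

/-- the eigenvector -/
theorem xx_eig (hL : IsIwasawaLog p L) {z : PadicAlgCl p} (hz : z ^ n = 1) (hn : 0 < n)
    {t : PadicAlgCl p} (ht : ‖t‖ < 1) (τ : PadicAlgCl p ≃ₐ[ℚ_[p]] PadicAlgCl p) (hτz : τ z = z) (h : τ t = z * t) :
    τ (xx L n z t) = z * xx L n z t := by
  have hz0 : z ≠ 0 := by
    intro h0
    have h1 := z_pow (p := p) hz
    rw [h0, zero_pow hn.ne'] at h1
    exact zero_ne_one h1
  obtain ⟨f, hf⟩ : ∃ f : ℕ → PadicAlgCl p, f = fun j => z⁻¹ ^ j *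
    L (1 + (p : PadicAlgCl p) * (z ^ j * t)) := ⟨_, rfl⟩
  have hx : xx L n z t = ∑ j ∈ Finset.range n, f j := by rw [hf]; rfl
  have hfn : f n = f 0 := by
    simp only [hf]
    rw [inv_pow, z_pow hz, inv_one, pow_zero, pow_zero]
  have h1 : ∀ j, τ (f j) = z * f (j + 1) := by
    intro j
    simp only [hf]
    rw [map_mul, map_pow, map_inv₀, hτz, ← log_gal hL τ (arg_ne hz hn ht j), map_add, map_one,
      map_mul, map_mul, map_pow, hτz, map_natCast, h, pow_succ, pow_succ z j]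
    rw [show z ^ j * (z * t) = z ^ j * z * t by ring]
    field_simp
  have h2 : ∑ j ∈ Finset.range n, f (j + 1) = ∑ j ∈ Finset.range n, f j := by
    have e1 := Finset.sum_range_succ f n
    have e2 := Finset.sum_range_succ' f n
    rw [hfn] at e1
    linear_combination e1 - e2
  rw [hx, map_sum, ← h2, Finset.mul_sum]
  exact Finset.sum_congr rfl fun j _ => h1 j

/-- the elements are not zero -/
theorem xx_ne (hL : IsIwasawaLog p L) {z : PadicAlgCl p} (hz : z ^ n = 1) (hn : 0 < n)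
    (hnp : ¬ p ∣ n) {t : PadicAlgCl p} (ht0 : t ≠ 0) (ht : ‖t‖ < 1) : xx L n z t ≠ 0 := by
  have hp0 : (p : PadicAlgCl p) ≠ 0 := Nat.cast_ne_zero.2 hp.out.ne_zero
  have hz0 : z ≠ 0 := by
    intro h0
    have h1 := z_pow (p := p) hz
    rw [h0, zero_pow hn.ne'] at h1
    exact zero_ne_one h1
  have hzj : ∀ j : ℕ, ‖z⁻¹ ^ j‖ = 1 := by
    intro j
    rw [norm_pow, norm_inv, norm_z hz hn, inv_one, one_pow]
  obtain ⟨r, hr⟩ : ∃ r : ℕ → PadicAlgCl p, r = fun j =>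
    L (1 + (p : PadicAlgCl p) * (z ^ j * t)) -
      (p : PadicAlgCl p) * (z ^ j * t) := ⟨_, rfl⟩
  have hrn : ∀ j, ‖r j‖ < ‖(p : PadicAlgCl p) * t‖ := by
    intro j
    have h1 := Pool.Agent.P8H34.TW.lgn p L hL.ser ((p : PadicAlgCl p) * (z ^ j * t))
      (mul_ne_zero hp0 (mul_ne_zero (pow_ne_zero _ hz0) ht0)) (small (fun x => x) hz hn ht j)
    have h2 : ‖(p : PadicAlgCl p) * (z ^ j * t)‖ = ‖(p : PadicAlgCl p) * t‖ := by
      rw [norm_mul, norm_mul, norm_pow, norm_z hz hn, one_pow, one_mul, norm_mul]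
    rw [h2] at h1
    rw [hr]
    exact h1
  have hsum : xx L n z t = (n : PadicAlgCl p) * ((p : PadicAlgCl p) * t) +
      ∑ j ∈ Finset.range n, z⁻¹ ^ j * r j := by
    unfold xx
    have h1 : ∀ j ∈ Finset.range n, z⁻¹ ^ j *
        L (1 + (p : PadicAlgCl p) * (z ^ j * t)) =
        (p : PadicAlgCl p) * t + z⁻¹ ^ j * r j := by
      intro j _
      have h3 : z⁻¹ ^ j * z ^ j = 1 := by
        rw [← mul_pow, inv_mul_cancel₀ hz0, one_pow]
      simp only [hr]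
      linear_combination ((p : PadicAlgCl p) * t) * h3
    rw [Finset.sum_congr rfl h1, Finset.sum_add_distrib, Finset.sum_const, Finset.card_range,
      nsmul_eq_mul]
  intro h0
  rw [hsum] at h0
  have h1 : (n : PadicAlgCl p) * ((p : PadicAlgCl p) * t) =
      -∑ j ∈ Finset.range n, z⁻¹ ^ j * r j := by linear_combination h0
  have hnn : ‖(n : PadicAlgCl p)‖ = 1 := by
    have h := PadicAlgCl.norm_extends p (n : ℚ_[p])
    rw [map_natCast] at h
    rw [h]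
    exact Padic.norm_natCast_eq_one_iff.2 ((Nat.Prime.coprime_iff_not_dvd hp.out).2 hnp)
  have h2 := congrArg norm h1
  rw [norm_neg, norm_mul, hnn, one_mul] at h2
  obtain ⟨j, hj, hle⟩ := IsUltrametricDist.exists_norm_finset_sum_le_of_nonempty
    (t := Finset.range n) (Finset.nonempty_range_iff.2 hn.ne')
    (fun j => z⁻¹ ^ j * r j)
  have h8 : ‖z⁻¹ ^ j * r j‖ = ‖r j‖ := by rw [norm_mul, hzj, one_mul]
  have h9 : ‖(p : PadicAlgCl p) * t‖ ≤ ‖z⁻¹ ^ j * r j‖ := by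
    rw [h2]
    exact hle
  rw [h8] at h9
  exact absurd (hrn j) (not_lt.2 h9)

/-- **The dimension.** -/
theorem tower_indep (hL : IsIwasawaLog p L) {z : PadicAlgCl p} (hz : z ^ n = 1)
    (hzF : z ∈ F) (hz2 : z ^ 2 ≠ 1) (hn : 0 < n) (hϖ : Unif F ϖ) (h : Tower n ϖ θ) (hnp : ¬ p ∣ n) (k : ℕ) :
    ∀ u ∈ F, ∀ c : ℕ → KF F,
      u + ∑ i ∈ Finset.range k, (c i : PadicAlgCl p) * xx L n z (θ (i + 1)) = 0 →
      ∀ i < k, c i = 0 := by
  induction k with
  | zero => intro u _ c _ i hi; omega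
  | succ k ih =>
    intro u hu c hc
    obtain ⟨τ, hτ, hfix, hτF⟩ := Tower.auto hz hϖ h hn k
    have hcz : ∀ a : KF F, τ (a : PadicAlgCl p) = a := fun a => hτF _ (mem_KF.1 a.2).2
    rw [Finset.sum_range_succ] at hc
    have e1 := congrArg τ hc
    rw [map_add, map_add, map_sum, map_mul, hcz, xx_eig hL hz hn (h.norm_lt hϖ _) τ (hτF z hzF) hτ, map_zero,
      hτF u hu] at e1
    have e2 : ∑ i ∈ Finset.range k, τ ((c i : PadicAlgCl p) * xx L n z (θ (i + 1))) =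
        ∑ i ∈ Finset.range k, (c i : PadicAlgCl p) * xx L n z (θ (i + 1)) := by
      refine Finset.sum_congr rfl fun i hi => ?_
      rw [map_mul, hcz, xx_fix hL hz hn (h.norm_lt hϖ _) τ (hτF z hzF)
        (hfix _ (Nat.succ_le_of_lt (Finset.mem_range.1 hi)))]
    rw [e2] at e1
    have hz1 : z - 1 ≠ 0 := by
      intro h0
      apply hz2
      rw [sub_eq_zero.1 h0, one_pow]
    have e3 : (z - 1) * ((c k : PadicAlgCl p) * xx L n z (θ (k + 1))) = 0 := by
      linear_combination e1 - hc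
    have e4 := (mul_eq_zero.1 e3).resolve_left hz1
    have e5 : (c k : PadicAlgCl p) = 0 := (mul_eq_zero.1 e4).resolve_right
      (xx_ne hL hz hn hnp (h.ne_zero hϖ hn _) (h.norm_lt hϖ _))
    rw [e5, zero_mul, add_zero] at hc
    have e6 := ih u hu c hc
    intro i hi
    rcases Nat.lt_succ_iff_lt_or_eq.1 hi with hi | rfl
    · exact e6 i hi
    · exact Subtype.ext e5

theorem sum_ext (x : ℕ → PadicAlgCl p) (s : Finset ℕ) (N : ℕ) (hN : s ⊆ Finset.range N)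
    (g : ℕ → KF F) : ∑ i ∈ Finset.range N, ((if i ∈ s then g i else 0 : KF F) : PadicAlgCl p) * x i =
      ∑ i ∈ s, g i • x i := by
  have e1 : ∑ i ∈ s, ((if i ∈ s then g i else 0 : KF F) : PadicAlgCl p) * x i =
      ∑ i ∈ Finset.range N, ((if i ∈ s then g i else 0 : KF F) : PadicAlgCl p) * x i :=
    Finset.sum_subset hN (fun i _ hi => by
      rw [if_neg hi]
      exact zero_mul _)
  rw [← e1]
  refine Finset.sum_congr rfl fun i hi => ?_
  rw [if_pos hi]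
  rfl

theorem fin_key (hL : IsIwasawaLog p L) {z : PadicAlgCl p} (hz : z ^ n = 1) (hzF : z ∈ F) (hz2 : z ^ 2 ≠ 1)
    (hn : 0 < n) (hnp : ¬ p ∣ n) (hϖ : Unif F ϖ) (h : Tower n ϖ θ) (s : Finset ℕ) (g : ℕ → KF F) (u : PadicAlgCl p)
    (hu : u ∈ F) (hg : u + ∑ i ∈ s, g i • xx L n z (θ (i + 1)) = 0) : ∀ i ∈ s, g i = 0 := by
  classical
  obtain ⟨N, hN⟩ : ∃ N, s ⊆ Finset.range N := ⟨_, s.subset_range_sup_succ⟩
  have h1 := tower_indep hL hz hzF hz2 hn hϖ h hnp N u hu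
    (fun i => if i ∈ s then g i else 0) (by
      rw [sum_ext (fun i => xx L n z (θ (i + 1))) s N hN g]
      exact hg)
  intro i hi
  have h2 := h1 i (Finset.mem_range.1 (hN hi))
  simp only [if_pos hi] at h2
  exact h2

theorem fin_indep (hL : IsIwasawaLog p L) {z : PadicAlgCl p} (hz : z ^ n = 1) (hzF : z ∈ F) (hz2 : z ^ 2 ≠ 1)
    (hn : 0 < n) (hnp : ¬ p ∣ n) (hϖ : Unif F ϖ) (h : Tower n ϖ θ) :
    LinearIndependent (KF F) (fun k => xx L n z (θ (k + 1))) := by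
  rw [linearIndependent_iff']
  intro s g hg
  exact fin_key hL hz hzF hz2 hn hnp hϖ h s g 0 (zero_mem _) (by rw [zero_add]; exact hg)

theorem fin_disj (hL : IsIwasawaLog p L) {z : PadicAlgCl p} (hz : z ^ n = 1) (hzF : z ∈ F) (hz2 : z ^ 2 ≠ 1)
    (hn : 0 < n) (hnp : ¬ p ∣ n) (hϖ : Unif F ϖ) (h : Tower n ϖ θ)
    (U : Submodule (KF F) (PadicAlgCl p)) (hU : ∀ w ∈ U, w ∈ F) :
    Disjoint U (Submodule.span (KF F) (Set.range fun k => xx L n z (θ (k + 1)))) := by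
  rw [Submodule.disjoint_def]
  intro w hw hwx
  obtain ⟨c, hc⟩ := (Finsupp.mem_span_range_iff_exists_finsupp).1 hwx
  have hc' : ∑ i ∈ c.support, c i • xx L n z (θ (i + 1)) = w := hc
  have h1 := fin_key hL hz hzF hz2 hn hnp hϖ h c.support c (-w) (neg_mem (hU w hw)) (by
    rw [hc']
    exact neg_add_cancel _)
  rw [← hc']
  refine Finset.sum_eq_zero fun i hi => ?_
  rw [h1 i hi, zero_smul]

/-- the elements are linear forms in logarithms -/
theorem fin_mem {z : PadicAlgCl p} (hz : z ^ n = 1) (hn : 0 < n) (hϖ : Unif F ϖ) (h : Tower n ϖ θ) (k : ℕ)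
    (W : Submodule (algebraicClosure ℚ (PadicAlgCl p)) (PadicAlgCl p))
    (hW : ∀ α : PadicAlgCl p, α ≠ 0 → IsAlgebraic ℚ α → L α ∈ W) : xx L n z (θ k) ∈ W := by
  have hza : IsAlgebraic ℚ z := by
    refine IsAlgebraic.of_pow hn ?_
    rw [z_pow hz]
    exact isAlgebraic_one
  have hpa : IsAlgebraic ℚ (p : PadicAlgCl p) := by
    have h1 := isAlgebraic_algebraMap (R := ℚ) (A := PadicAlgCl p) (p : ℚ)
    rwa [map_natCast] at h1
  have hta : IsAlgebraic ℚ (θ k) := by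
    refine IsAlgebraic.of_pow (pow_pos hn k) ?_
    rw [h.pow_p]
    exact hϖ.alg
  refine Submodule.sum_mem _ fun j _ => ?_
  have h2 : IsAlgebraic ℚ (1 + (p : PadicAlgCl p) * (z ^ j * θ k)) :=
    isAlgebraic_one.add (hpa.mul ((hza.pow j).mul hta))
  exact W.smul_mem (⟨z⁻¹ ^ j, mem_algebraicClosure_iff.2 (hza.inv.pow j)⟩ :
    algebraicClosure ℚ (PadicAlgCl p)) (hW _ (arg_ne hz hn (h.norm_lt hϖ k) j) h2)

/-- the tower is a chain -/
theorem tower_chain (hL : IsIwasawaLog p L) {z : PadicAlgCl p} (hz : z ^ n = 1) (hzF : z ∈ F)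
    (hz2 : z ^ 2 ≠ 1) (hn : 0 < n) (hϖ : Unif F ϖ) (h : Tower n ϖ θ)
    (U : Submodule (KF F) (PadicAlgCl p)) (hU : ∀ w ∈ U, w ∈ F) (k : ℕ) :
    ∃ (τ : PadicAlgCl p ≃ₐ[ℚ_[p]] PadicAlgCl p) (c : KF F), (∀ a ∈ F, τ a = a) ∧
      τ (xx L n z (θ (k + 1))) = (c : PadicAlgCl p) * xx L n z (θ (k + 1)) ∧ c ^ 2 ≠ 1 ∧
      (∀ i, i < k → τ (xx L n z (θ (i + 1))) = xx L n z (θ (i + 1))) ∧
      ∀ w ∈ U, τ w = w := by
  obtain ⟨τ, hτ, hfix, hτF⟩ := Tower.auto hz hϖ h hn k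
  have hza : IsAlgebraic ℚ z := by
    refine IsAlgebraic.of_pow hn ?_
    rw [hz]
    exact isAlgebraic_one
  refine ⟨τ, ⟨z, mem_KF.2 ⟨hza, hzF⟩⟩, hτF, xx_eig hL hz hn (h.norm_lt hϖ _) τ (hτF z hzF) hτ,
    fun h5 => hz2 ?_, fun i hi => xx_fix hL hz hn (h.norm_lt hϖ _) τ (hτF z hzF)
      (hfix _ (Nat.succ_le_of_lt hi)), fun w hw => hτF w (hU w hw)⟩
  have h6 := congrArg (fun c : KF F => (c : PadicAlgCl p)) h5
  exact h6

end Pool.Agent.P8H10.TX
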